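import Pool.Agent.Run7.h283.EB.Cyc

/-!
# Exceptional bases: finitely generated groups which contain a number `1 - ζ`
-/

set_option autoImplicit false

namespace Run7.h283.EB

open NumberField IsDedekindDomain Run7.h283.NW
open scoped WithZero

variable {K : Type} [Field K] [NumberField K]

lemma uniform' {C' : ℝ} {T : Type} (A : T → K) (F : Finset T) (Q : T → T → Prop)
    (h : ∀ c ∈ F, ∀ c' ∈ F, Q c c' → ∃ x₀ : ℕ, ∀ x : ℕ, x₀ ≤ x →
      (x : ℝ) / (C' * Real.log x) ≤ (cnt (A c) x : ℝ) + cnt (A c') x) :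
    ∃ x₀ : ℕ, ∀ x : ℕ, x₀ ≤ x → ∀ c ∈ F, ∀ c' ∈ F, Q c c' →
        (x : ℝ) / (C' * Real.log x) ≤ (cnt (A c) x : ℝ) + cnt (A c') x := by
  classical
  have h1 : ∀ c c' : T, ∃ x₀ : ℕ, c ∈ F → c' ∈ F → Q c c' →
      ∀ x : ℕ, x₀ ≤ x → (x : ℝ) / (C' * Real.log x) ≤ (cnt (A c) x : ℝ) + cnt (A c') x := by
    intro c c'
    by_cases h2 : c ∈ F ∧ c' ∈ F ∧ Q c c'
    · obtain ⟨x₀, h3⟩ := h c h2.1 c' h2.2.1 h2.2.2
      exact ⟨x₀, fun _ _ _ => h3⟩
    · exact ⟨0, fun h3 h4 h5 => absurd ⟨h3, h4, h5⟩ h2⟩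
  choose t ht using h1
  refine ⟨∑ c ∈ F, ∑ c' ∈ F, t c c', fun x hx c hc c' hc' hm => ht c c' hc hc' hm x (le_trans ?_ hx)⟩
  calc t c c' ≤ ∑ c' ∈ F, t c c' :=
        Finset.single_le_sum (f := fun c' => t c c') (fun _ _ => Nat.zero_le _) hc'
    _ ≤ _ := Finset.single_le_sum (f := fun c => ∑ c' ∈ F, t c c') (fun _ _ => Nat.zero_le _) hc

theorem master' {C' : ℝ} {T : Type} [DecidableEq T] (A : T → K) (D : T → T) (hD : Function.Injective D)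
    (F G : Finset T)
    (hQ : ∀ c ∈ F, ∀ j : ℕ, D^[j + 1] c ∈ F → ∃ x₀ : ℕ, ∀ x : ℕ, x₀ ≤ x →
      (x : ℝ) / (C' * Real.log x) ≤ (cnt (A c) x : ℝ) + cnt (A (D^[j + 1] c)) x)
    (hG : ∀ c ∈ G, c ∈ F ∧ D c ∈ F) :
    ∃ x₀ : ℕ, ∀ x : ℕ, x₀ ≤ x →
      G.card ≤ {c : T | c ∈ F ∧ (x : ℝ) / (2 * C' * Real.log x) ≤ cnt (A c) x}.ncard := by
  classical
  obtain ⟨x₀, h1⟩ := uniform' (C' := C') A F (fun c c' => ∃ j : ℕ, c' = D^[j + 1] c) (by
    rintro c hc c' hc' ⟨j, rfl⟩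
    exact hQ c hc j hc')
  refine ⟨x₀, fun x hx => ?_⟩
  have h2 := chain D hD F G (fun c => ¬ ((x : ℝ) / (2 * C' * Real.log x) ≤ cnt (A c) x)) ?_ hG
  · have h3 : {c : T | c ∈ F ∧ (x : ℝ) / (2 * C' * Real.log x) ≤ cnt (A c) x} =
        ((F.filter fun c => ¬ ¬ ((x : ℝ) / (2 * C' * Real.log x) ≤ cnt (A c) x) : Finset T) : Set T) := by
      ext c
      simp
    rw [h3, Set.ncard_coe_finset]
    exact h2
  · rintro c hc j hj ⟨h4, h5⟩
    have h6 := h1 x hx c hc _ hj ⟨j, rfl⟩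
    have h7 : (x : ℝ) / (C' * Real.log x) =
        (x : ℝ) / (2 * C' * Real.log x) + (x : ℝ) / (2 * C' * Real.log x) := by
      ring
    push Not at h4 h5
    linarith

lemma pair_cyc {m : ℕ} (hpp : IsPrimePow m) (hm : 3 ≤ m) {ζ : K} (hζ : IsPrimitiveRoot ζ m)
    {a a' : K} (ha : a ≠ 0) (ha' : a' ≠ 0) {j : ℕ} (hj : 0 < j) (h : a' = a * (1 - ζ) ^ j) :
    ∃ x₀ : ℕ, ∀ x : ℕ, x₀ ≤ x → (x : ℝ) / (39 * m * Real.log x) ≤ (cnt a x : ℝ) + cnt a' x := by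
  have hm0 : (0 : ℝ) < m := by
    have : 0 < m := by omega
    exact_mod_cast this
  obtain ⟨x₀, h1⟩ := cyc_count hpp hm hζ
  obtain ⟨B₀, hB₀⟩ := bel_mul ha' (inv_ne_zero ha)
  set B := max j B₀ with hB
  obtain ⟨x₂, h2⟩ := big_div_log ((B + 1) * (38 * 39 * m))
  refine ⟨max x₀ (max x₂ 2), fun x hx => ?_⟩
  have hx1 : x₀ ≤ x := (le_max_left _ _).trans hx
  have hx3 : x₂ ≤ x := (le_max_left _ _).trans ((le_max_right _ _).trans hx)
  have hx4 : 2 ≤ x := (le_max_right _ _).trans ((le_max_right _ _).trans hx)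
  have e1 := h1 x hx1
  have e2 := h2 x hx3
  have hsub : {p : ℕ | p ≤ x ∧ Bel (1 - ζ) p} ⊆
      ({p : ℕ | p ≤ x ∧ Bel a p} ∪ {p : ℕ | p ≤ x ∧ Bel a' p}) ∪ Set.Iic B := by
    rintro p ⟨hpx, hp⟩
    by_cases hpB : p ≤ B
    · exact Or.inr hpB
    push Not at hpB
    have e3 := bel_pow hj p ((le_max_left _ _).trans_lt hpB) hp
    have e4 : (1 - ζ) ^ j = a' * a⁻¹ := by
      rw [h]
      field_simp
    rw [e4] at e3
    rcases hB₀ p ((le_max_right _ _).trans_lt hpB) e3 with e5 | e5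
    · exact Or.inl (Or.inr ⟨hpx, e5⟩)
    · exact Or.inl (Or.inl ⟨hpx, bel_inv p e5⟩)
  have h4 := (Set.ncard_le_ncard hsub (((fin_bel a x).union (fin_bel a' x)).union (Set.finite_Iic B))).trans
    ((Set.ncard_union_le _ _).trans (Nat.add_le_add_right (Set.ncard_union_le _ _) _))
  have h7 : (Set.Iic B).ncard = B + 1 := by
    rw [← Finset.coe_Iic, Set.ncard_coe_finset, Nat.card_Iic]
  rw [h7] at h4
  have h5 : (cnt (1 - ζ) x : ℝ) ≤ (cnt a x : ℝ) + cnt a' x + (B + 1) := by exact_mod_cast h4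
  have hlog : 0 < Real.log x := Real.log_pos (by exact_mod_cast (by omega : 1 < x))
  have h8 : (x : ℝ) / (38 * m * Real.log x) - (x : ℝ) / (39 * m * Real.log x) =
      (x / Real.log x) * (1 / (38 * 39 * m)) := by
    field_simp
    norm_num
  have h9 : ((B : ℝ) + 1) ≤ (x / Real.log x) * (1 / (38 * 39 * m)) := by
    calc ((B : ℝ) + 1) = ((B + 1) * (38 * 39 * m)) * (1 / (38 * 39 * m)) := by field_simp
      _ ≤ _ := mul_le_mul_of_nonneg_right e2 (by positivity)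
  linarith

theorem group_cyc {μ : ℕ} (hpp : IsPrimePow μ) (hμ : 3 ≤ μ) {ζ : K} (hζ : IsPrimitiveRoot ζ μ)
    {ι : Type} [Fintype ι] (g : ι → K) (hg : ∀ i, g i ≠ 0) (w : ι → ℤ)
    (h : ∏ i, g i ^ w i = 1 - ζ) (N : ℕ) :
    ∃ x₀ : ℕ, ∀ x : ℕ, x₀ ≤ x →
      ∏ i, (2 * N + 1 - (w i).natAbs) ≤
        {n : ι → ℤ | (∀ i, |n i| ≤ (N : ℤ)) ∧
          (x : ℝ) / (2 * (39 * μ) * Real.log x) ≤ cnt (∏ i, g i ^ n i) x}.ncard := by
  classical
  set F : Finset (ι → ℤ) := Fintype.piFinset fun _ => Finset.Icc (-(N : ℤ)) N with hF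
  set G : Finset (ι → ℤ) :=
    Fintype.piFinset fun i => Finset.Icc (-(N : ℤ) + max (-(w i)) 0) (N - max (w i) 0) with hG
  have hit : ∀ (j : ℕ) (n : ι → ℤ), (fun n : ι → ℤ => n + w)^[j] n = n + (j : ℤ) • w := by
    intro j
    induction j with
    | zero => intro n; simp
    | succ j ih =>
      intro n
      rw [Function.iterate_succ_apply, ih]
      push_cast
      rw [add_smul, one_smul]
      abel
  have hmemF : ∀ n : ι → ℤ, n ∈ F ↔ ∀ i, |n i| ≤ (N : ℤ) := by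
    intro n
    rw [hF, Fintype.mem_piFinset]
    simp only [Finset.mem_Icc, abs_le]
  have hQ : ∀ n ∈ F, ∀ j : ℕ, (fun n : ι → ℤ => n + w)^[j + 1] n ∈ F → ∃ x₀ : ℕ, ∀ x : ℕ, x₀ ≤ x →
      (x : ℝ) / (39 * μ * Real.log x) ≤ (cnt (∏ i, g i ^ n i) x : ℝ) +
        cnt (∏ i, g i ^ ((fun n : ι → ℤ => n + w)^[j + 1] n i)) x := by
    intro n _ j _
    refine pair_cyc hpp hμ hζ (Finset.prod_ne_zero_iff.2 fun i _ => zpow_ne_zero _ (hg i))
      (Finset.prod_ne_zero_iff.2 fun i _ => zpow_ne_zero _ (hg i)) (Nat.succ_pos j) ?_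
    rw [hit, ← h, ← Finset.prod_pow, ← Finset.prod_mul_distrib]
    refine Finset.prod_congr rfl fun i _ => ?_
    rw [Pi.add_apply, zpow_add₀ (hg i), Pi.smul_apply, smul_eq_mul, mul_comm ((j + 1 : ℕ) : ℤ), zpow_mul,
      zpow_natCast]
  have hGF : ∀ n ∈ G, n ∈ F ∧ (fun n : ι → ℤ => n + w) n ∈ F := by
    intro n hn
    rw [hG, Fintype.mem_piFinset] at hn
    simp only [Finset.mem_Icc] at hn
    constructor
    · refine (hmemF n).2 fun i => ?_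
      have := hn i
      rw [abs_le]
      omega
    · refine (hmemF _).2 fun i => ?_
      have := hn i
      show |n i + w i| ≤ (N : ℤ)
      rw [abs_le]
      omega
  obtain ⟨x₀, h1⟩ := master' (C' := 39 * μ) (fun n : ι → ℤ => ∏ i, g i ^ n i) (fun n => n + w)
    (add_left_injective w) F G hQ hGF
  refine ⟨x₀, fun x hx => ?_⟩
  have h2 := h1 x hx
  have h3 : G.card = ∏ i, (2 * N + 1 - (w i).natAbs) := by
    rw [hG, Fintype.card_piFinset]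
    refine Finset.prod_congr rfl fun i _ => ?_
    rw [Int.card_Icc]
    omega
  rw [h3] at h2
  simpa only [hmemF] using h2

end Run7.h283.EB
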