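import Pool.Agent.Run7.h283.EB.Core

/-!
# Non-Wieferich primes and the roots of unity

If `v` divides `α ^ (N v - 1) - 1` exactly once, `n ∣ N v - 1` and `K` contains the `n`-th roots of unity,
then `v` divides exactly one of the numbers `α ^ ((N v - 1) / n) - ξ`, `ξ ^ n = 1`, and this one exactly once.
-/

set_option autoImplicit false

namespace Run7.h283.EB

open NumberField IsDedekindDomain Polynomial
open scoped WithZero

lemma le_exp_of_lt_one {a : ℤᵐ⁰} (h : a < 1) : a ≤ WithZero.exp (-1 : ℤ) := by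
  rcases eq_or_ne a 0 with rfl | h0
  · exact zero_le
  · obtain ⟨n, rfl⟩ : ∃ n : ℤ, a = WithZero.exp n := ⟨WithZero.log a, (WithZero.exp_log h0).symm⟩
    rw [← WithZero.exp_zero, WithZero.exp_lt_exp] at h
    rw [WithZero.exp_le_exp]
    omega

lemma prod_exp {ι : Type*} [DecidableEq ι] (s : Finset ι) (f : ι → ℤᵐ⁰) (h1 : ∀ i ∈ s, f i ≤ 1)
    (hp : ∏ i ∈ s, f i = WithZero.exp (-1 : ℤ)) :
    ∃ i ∈ s, f i = WithZero.exp (-1 : ℤ) ∧ ∀ j ∈ s, j ≠ i → f j = 1 := by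
  have hlt : WithZero.exp (-1 : ℤ) < (1 : ℤᵐ⁰) := by
    rw [← WithZero.exp_zero, WithZero.exp_lt_exp]
    norm_num
  have hex : ∃ i ∈ s, f i ≠ 1 := by
    by_contra hc
    push Not at hc
    rw [Finset.prod_eq_one hc] at hp
    exact absurd hp hlt.ne'
  obtain ⟨i, hi, hi1⟩ := hex
  have hfi : f i ≤ WithZero.exp (-1 : ℤ) := le_exp_of_lt_one (lt_of_le_of_ne (h1 i hi) hi1)
  rw [← Finset.mul_prod_erase s f hi] at hp
  have hP1 : ∏ j ∈ s.erase i, f j ≤ 1 :=
    Finset.prod_le_one' (fun j hj => h1 j (Finset.mem_of_mem_erase hj))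
  have hPe : ∏ j ∈ s.erase i, f j = 1 := by
    by_contra hne
    have h2 : ∏ j ∈ s.erase i, f j ≤ WithZero.exp (-1 : ℤ) := le_exp_of_lt_one (lt_of_le_of_ne hP1 hne)
    have h3 := mul_le_mul' hfi h2
    rw [hp, ← WithZero.exp_add, WithZero.exp_le_exp] at h3
    omega
  refine ⟨i, hi, ?_, ?_⟩
  · rw [hPe, mul_one] at hp
    exact hp
  · intro j hj hji
    exact (Finset.prod_eq_one_iff_of_le_one'
      (fun k hk => h1 k (Finset.mem_of_mem_erase hk))).1 hPe j (Finset.mem_erase.2 ⟨hji, hj⟩)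

/-- `v` divides exactly one of the numbers `α ^ ((N v - 1) / n) - ξ`, `ξ ^ n = 1`, and this one exactly once. -/
theorem roots {K : Type*} [Field K] [NumberField K] {α : K} {v : HeightOneSpectrum (𝓞 K)}
    (h : v.valuation K α = 1)
    (h' : v.valuation K (α ^ (Ideal.absNorm v.asIdeal - 1) - 1) = WithZero.exp (-1 : ℤ))
    {n : ℕ} (hn : 0 < n) {ζ : K} (hζ : IsPrimitiveRoot ζ n) (hd : n ∣ Ideal.absNorm v.asIdeal - 1) :
    ∃ ξ : K, ξ ^ n = 1 ∧
      v.valuation K (α ^ ((Ideal.absNorm v.asIdeal - 1) / n) - ξ) = WithZero.exp (-1 : ℤ) ∧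
      ∀ η : K, η ^ n = 1 → η ≠ ξ → v.valuation K (α ^ ((Ideal.absNorm v.asIdeal - 1) / n) - η) = 1 := by
  classical
  obtain ⟨k, hk⟩ := hd
  have hk' : (Ideal.absNorm v.asIdeal - 1) / n = k := by rw [hk]; exact Nat.mul_div_cancel_left k hn
  rw [hk']
  rw [hk, mul_comm, pow_mul] at h'
  have hz : ∀ η : K, η ^ n = 1 → v.valuation K η = 1 := by
    intro η hη
    have h1 : (v.valuation K η) ^ n = 1 := by rw [← map_pow, hη, map_one]
    exact (pow_eq_one_iff.1 h1).resolve_right (by omega)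
  have hprod : (α ^ k) ^ n - 1 = ∏ ξ ∈ nthRootsFinset n (1 : K), (α ^ k - ξ) := by
    have h1 := hζ.pow_sub_pow_eq_prod_sub_mul (α ^ k) 1 hn
    simpa using h1
  rw [hprod, map_prod] at h'
  obtain ⟨ξ, hξ, h1, h2⟩ := prod_exp (nthRootsFinset n (1 : K)) (fun ξ => v.valuation K (α ^ k - ξ))
    (fun ξ hξ => by
      have h3 := hz ξ ((mem_nthRootsFinset hn _).1 hξ)
      refine (Valuation.map_sub _ _ _).trans ?_
      rw [map_pow, h, h3, one_pow, max_self]) h'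
  exact ⟨ξ, (mem_nthRootsFinset hn _).1 hξ, h1, fun η hη hne => h2 η ((mem_nthRootsFinset hn _).2 hη) hne⟩

end Run7.h283.EB
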