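import Pool.Agent.Run7.h283.NW.Fin

/-!
# Exceptional bases in number fields: pairs, chains, counting
-/

set_option autoImplicit false

namespace Run7.h283.EB

open NumberField IsDedekindDomain Run7.h283.NW
open scoped WithZero

section Field

variable {K : Type} [Field K] [NumberField K]

/-- `p` is a prime number below a non-Wieferich prime of `K` for the base `a` -/
def Bel (a : K) (p : ℕ) : Prop :=
  p.Prime ∧ ∃ v : HeightOneSpectrum (𝓞 K), (p : 𝓞 K) ∈ v.asIdeal ∧ NonWieferich K a v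

/-- the number of the prime numbers `p ≤ x` below non-Wieferich primes of `K` for the base `a` -/
noncomputable def cnt (a : K) (x : ℕ) : ℕ := {p : ℕ | p ≤ x ∧ Bel a p}.ncard

lemma fin_bel (a : K) (x : ℕ) : {p : ℕ | p ≤ x ∧ Bel a p}.Finite :=
  (Set.finite_Iic x).subset fun _ hp => hp.1

lemma pair {b : ℕ} (hb : 2 ≤ b) {C C' : ℝ} (hC : 0 < C) (hCC : C < C') (hd : Dens b C)
    {a a' : K} (ha : a ≠ 0) (ha' : a' ≠ 0) {m : ℤ} (hm : m ≠ 0)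
    (h : |Algebra.norm ℚ a' / Algebra.norm ℚ a| = (b : ℚ) ^ m) :
    ∃ x₀ : ℕ, ∀ x : ℕ, x₀ ≤ x → (x : ℝ) / (C' * Real.log x) ≤ (cnt a x : ℝ) + cnt a' x := by
  obtain ⟨x₀, h1⟩ := dens_of (ι := Bool) (fun _ => K) (fun i => cond i a' a)
    (by rintro (_ | _) <;> simpa) (fun i => cond i 1 (-1)) hm hb
    (by
      rw [Fintype.prod_bool]
      simp only [cond_true, cond_false, zpow_one, zpow_neg]
      rw [← h, div_eq_mul_inv]) hC hCC hd
  refine ⟨x₀, fun x hx => (h1 x hx).trans ?_⟩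
  have h2 : {p : ℕ | p ≤ x ∧ Below (ι := Bool) (fun _ => K) (fun i => cond i a' a) p} ⊆
      {p : ℕ | p ≤ x ∧ Bel a p} ∪ {p : ℕ | p ≤ x ∧ Bel a' p} := by
    rintro p ⟨hpx, hp, i, v, hv, hw⟩
    cases i
    · exact Or.inl ⟨hpx, hp, v, hv, hw⟩
    · exact Or.inr ⟨hpx, hp, v, hv, hw⟩
  have h3 := (Set.ncard_le_ncard h2 ((fin_bel a x).union (fin_bel a' x))).trans (Set.ncard_union_le _ _)
  exact_mod_cast h3

end Field

lemma chain {T : Type} [DecidableEq T] (D : T → T) (hD : Function.Injective D) (F G : Finset T)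
    (P : T → Prop) [DecidablePred P]
    (h : ∀ c ∈ F, ∀ j : ℕ, D^[j + 1] c ∈ F → ¬ (P c ∧ P (D^[j + 1] c)))
    (hG : ∀ c ∈ G, c ∈ F ∧ D c ∈ F) : G.card ≤ (F.filter fun c => ¬ P c).card := by
  classical
  refine Finset.card_le_card_of_injOn
    (fun c => if ∃ j : ℕ, D^[j + 1] c ∈ F ∧ P (D^[j + 1] c) then c else D c) ?_ ?_
  · intro c hc
    obtain ⟨h1, h2⟩ := hG c hc
    simp only
    split_ifs with h3
    · obtain ⟨j, h4, h5⟩ := h3
      exact Finset.mem_coe.2 (Finset.mem_filter.2 ⟨h1, fun h6 => h c h1 j h4 ⟨h6, h5⟩⟩)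
    · push Not at h3
      exact Finset.mem_coe.2 (Finset.mem_filter.2 ⟨h2, h3 0 h2⟩)
  · intro a ha b hb hab
    simp only at hab
    split_ifs at hab with h1 h2 h2
    · exact hab
    · exfalso
      obtain ⟨j, h3, h4⟩ := h1
      apply h2
      refine ⟨j + 1, ?_⟩
      rw [Function.iterate_succ_apply, ← hab]
      exact ⟨h3, h4⟩
    · exfalso
      obtain ⟨j, h3, h4⟩ := h2
      apply h1
      refine ⟨j + 1, ?_⟩
      rw [Function.iterate_succ_apply, hab]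
      exact ⟨h3, h4⟩
    · exact hD hab

section Field

variable {K : Type} [Field K] [NumberField K]

lemma uniform {b : ℕ} (hb : 2 ≤ b) {C C' : ℝ} (hC : 0 < C) (hCC : C < C') (hd : Dens b C)
    {T : Type} (A : T → K) (F : Finset T) (hA : ∀ c ∈ F, A c ≠ 0) :
    ∃ x₀ : ℕ, ∀ x : ℕ, x₀ ≤ x → ∀ c ∈ F, ∀ c' ∈ F,
      (∃ m : ℤ, m ≠ 0 ∧ |Algebra.norm ℚ (A c') / Algebra.norm ℚ (A c)| = (b : ℚ) ^ m) →
        (x : ℝ) / (C' * Real.log x) ≤ (cnt (A c) x : ℝ) + cnt (A c') x := by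
  classical
  have h1 : ∀ c c' : T, ∃ x₀ : ℕ, c ∈ F → c' ∈ F →
      (∃ m : ℤ, m ≠ 0 ∧ |Algebra.norm ℚ (A c') / Algebra.norm ℚ (A c)| = (b : ℚ) ^ m) →
      ∀ x : ℕ, x₀ ≤ x → (x : ℝ) / (C' * Real.log x) ≤ (cnt (A c) x : ℝ) + cnt (A c') x := by
    intro c c'
    by_cases h : c ∈ F ∧ c' ∈ F ∧ (∃ m : ℤ, m ≠ 0 ∧ |Algebra.norm ℚ (A c') / Algebra.norm ℚ (A c)| = (b : ℚ) ^ m)
    · obtain ⟨hc, hc', m, hm, h2⟩ := h
      obtain ⟨x₀, h3⟩ := pair hb hC hCC hd (hA c hc) (hA c' hc') hm h2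
      exact ⟨x₀, fun _ _ _ => h3⟩
    · exact ⟨0, fun h2 h3 h4 => absurd ⟨h2, h3, h4⟩ h⟩
  choose t ht using h1
  refine ⟨∑ c ∈ F, ∑ c' ∈ F, t c c', fun x hx c hc c' hc' hm => ht c c' hc hc' hm x (le_trans ?_ hx)⟩
  calc t c c' ≤ ∑ c' ∈ F, t c c' :=
        Finset.single_le_sum (f := fun c' => t c c') (fun _ _ => Nat.zero_le _) hc'
    _ ≤ _ := Finset.single_le_sum (f := fun c => ∑ c' ∈ F, t c c') (fun _ _ => Nat.zero_le _) hc

theorem master {b : ℕ} (hb : 2 ≤ b) {C C' : ℝ} (hC : 0 < C) (hCC : C < C') (hd : Dens b C)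
    {T : Type} [DecidableEq T] (A : T → K) (D : T → T) (hD : Function.Injective D) (F G : Finset T)
    (hA : ∀ c ∈ F, A c ≠ 0)
    (hQ : ∀ c ∈ F, ∀ j : ℕ, D^[j + 1] c ∈ F →
      ∃ m : ℤ, m ≠ 0 ∧ |Algebra.norm ℚ (A (D^[j + 1] c)) / Algebra.norm ℚ (A c)| = (b : ℚ) ^ m)
    (hG : ∀ c ∈ G, c ∈ F ∧ D c ∈ F) :
    ∃ x₀ : ℕ, ∀ x : ℕ, x₀ ≤ x →
      G.card ≤ {c : T | c ∈ F ∧ (x : ℝ) / (2 * C' * Real.log x) ≤ cnt (A c) x}.ncard := by
  classical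
  obtain ⟨x₀, h1⟩ := uniform hb hC hCC hd A F hA
  refine ⟨x₀, fun x hx => ?_⟩
  have h2 := chain D hD F G (fun c => ¬ ((x : ℝ) / (2 * C' * Real.log x) ≤ cnt (A c) x)) ?_ hG
  · have h3 : {c : T | c ∈ F ∧ (x : ℝ) / (2 * C' * Real.log x) ≤ cnt (A c) x} =
        ((F.filter fun c => ¬ ¬ ((x : ℝ) / (2 * C' * Real.log x) ≤ cnt (A c) x) : Finset T) : Set T) := by
      ext c
      simp
    rw [h3, Set.ncard_coe_finset]
    exact h2
  · rintro c hc j hj ⟨h4, h5⟩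
    have h6 := h1 x hx c hc _ hj (hQ c hc j hj)
    have h7 : (x : ℝ) / (C' * Real.log x) =
        (x : ℝ) / (2 * C' * Real.log x) + (x : ℝ) / (2 * C' * Real.log x) := by
      ring
    push Not at h4 h5
    linarith

end Field

end Run7.h283.EB
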