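import Pool.Agent.Run7.h283.EB.Core

/-!
# Exceptional bases in number fields: boxes and finitely generated groups
-/

set_option autoImplicit false

namespace Run7.h283.EB

open NumberField IsDedekindDomain Run7.h283.NW
open scoped WithZero

variable {K : Type} [Field K] [NumberField K]

lemma norm_zpow {g : K} (hg : g ≠ 0) (n : ℤ) : Algebra.norm ℚ (g ^ n) = Algebra.norm ℚ g ^ n := by
  have h1 : g ^ n = ((Units.mk0 g hg ^ n : Kˣ) : K) := by
    rw [Units.val_zpow_eq_zpow_val, Units.val_mk0]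
  have h2 : Algebra.norm ℚ g = ((Units.map (Algebra.norm ℚ : K →* ℚ) (Units.mk0 g hg) : ℚˣ) : ℚ) := by
    rw [Units.coe_map, Units.val_mk0]
  rw [h1, h2, ← Units.val_zpow_eq_zpow_val, ← map_zpow, Units.coe_map]

lemma norm_natCast_pow (b k : ℕ) : Algebra.norm ℚ ((b : K) ^ k) = (b : ℚ) ^ (k * Module.finrank ℚ K) := by
  have h1 : ((b : K) ^ k) = algebraMap ℚ K ((b : ℚ) ^ k) := by simp
  rw [h1, Algebra.norm_algebraMap, ← pow_mul]

theorem box {b : ℕ} (hb : 2 ≤ b) {C C' : ℝ} (hC : 0 < C) (hCC : C < C') (hd : Dens b C)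
    {ι : Type} [Fintype ι] (ω : ι → K) (hω : LinearIndependent ℤ ω) (X : ℕ) :
    ∃ x₀ : ℕ, ∀ x : ℕ, x₀ ≤ x →
      (2 * (X / b) + 1) ^ Fintype.card ι - 1 ≤
        {c : ι → ℤ | (c ≠ 0 ∧ ∀ i, |c i| ≤ (X : ℤ)) ∧
          (x : ℝ) / (2 * C' * Real.log x) ≤ cnt (∑ i, (c i : K) * ω i) x}.ncard := by
  classical
  set F : Finset (ι → ℤ) := (Fintype.piFinset fun _ => Finset.Icc (-(X : ℤ)) X).erase 0 with hF
  set G : Finset (ι → ℤ) :=
    (Fintype.piFinset fun _ => Finset.Icc (-((X / b : ℕ) : ℤ)) ((X / b : ℕ) : ℤ)).erase 0 with hG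
  have hb0 : (b : ℤ) ≠ 0 := by
    have : b ≠ 0 := by omega
    exact_mod_cast this
  have hit : ∀ (j : ℕ) (c : ι → ℤ), (fun c : ι → ℤ => (b : ℤ) • c)^[j] c = ((b : ℤ) ^ j) • c := by
    intro j
    induction j with
    | zero => intro c; simp
    | succ j ih =>
      intro c
      rw [Function.iterate_succ_apply, ih, smul_smul, pow_succ]
  have hmemF : ∀ c : ι → ℤ, c ∈ F ↔ (c ≠ 0 ∧ ∀ i, |c i| ≤ (X : ℤ)) := by
    intro c
    rw [hF, Finset.mem_erase, Fintype.mem_piFinset]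
    simp only [Finset.mem_Icc, abs_le]
  have hne : ∀ c ∈ F, ∑ i, (c i : K) * ω i ≠ 0 := by
    intro c hc h0
    obtain ⟨h1, -⟩ := (hmemF c).1 hc
    apply h1
    have h2 := Fintype.linearIndependent_iff.1 hω c (by simpa only [zsmul_eq_mul] using h0)
    funext i
    exact h2 i
  have hQ : ∀ c ∈ F, ∀ j : ℕ, (fun c : ι → ℤ => (b : ℤ) • c)^[j + 1] c ∈ F → ∃ m : ℤ, m ≠ 0 ∧
      |Algebra.norm ℚ (∑ i, (((fun c : ι → ℤ => (b : ℤ) • c)^[j + 1] c i : ℤ) : K) * ω i) /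
        Algebra.norm ℚ (∑ i, (c i : K) * ω i)| = (b : ℚ) ^ m := by
    intro c hc j _
    refine ⟨(((j + 1) * Module.finrank ℚ K : ℕ) : ℤ), ?_, ?_⟩
    · have : (j + 1) * Module.finrank ℚ K ≠ 0 := mul_ne_zero (by omega) Module.finrank_pos.ne'
      exact_mod_cast this
    · have h2 : ∑ i, (((fun c : ι → ℤ => (b : ℤ) • c)^[j + 1] c i : ℤ) : K) * ω i =
          ((b : K) ^ (j + 1)) * ∑ i, (c i : K) * ω i := by
        rw [hit, Finset.mul_sum]
        refine Finset.sum_congr rfl fun i _ => ?_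
        rw [Pi.smul_apply, smul_eq_mul]
        push_cast
        ring
      have h3 : Algebra.norm ℚ (∑ i, (c i : K) * ω i) ≠ 0 := by
        rw [Algebra.norm_ne_zero_iff]
        exact hne c hc
      rw [h2, map_mul, norm_natCast_pow, mul_div_assoc, div_self h3, mul_one, zpow_natCast]
      exact abs_of_nonneg (by positivity)
  have hGF : ∀ c ∈ G, c ∈ F ∧ (fun c : ι → ℤ => (b : ℤ) • c) c ∈ F := by
    intro c hc
    rw [hG, Finset.mem_erase, Fintype.mem_piFinset] at hc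
    obtain ⟨hc0, hc1⟩ := hc
    simp only [Finset.mem_Icc] at hc1
    have h4 : ((X / b : ℕ) : ℤ) * b ≤ X := by exact_mod_cast Nat.div_mul_le_self X b
    have h5 : ∀ i, |c i| ≤ ((X / b : ℕ) : ℤ) := fun i => abs_le.2 (hc1 i)
    have hb1 : (1 : ℤ) ≤ b := by exact_mod_cast (by omega : 1 ≤ b)
    constructor
    · refine (hmemF c).2 ⟨hc0, fun i => (h5 i).trans ?_⟩
      exact_mod_cast Nat.div_le_self X b
    · refine (hmemF _).2 ⟨smul_ne_zero hb0 hc0, fun i => ?_⟩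
      show |((b : ℤ) • c) i| ≤ (X : ℤ)
      rw [Pi.smul_apply, smul_eq_mul, abs_mul, abs_of_nonneg (by omega : (0 : ℤ) ≤ b)]
      calc (b : ℤ) * |c i| ≤ b * ((X / b : ℕ) : ℤ) := mul_le_mul_of_nonneg_left (h5 i) (by omega)
        _ ≤ X := by rw [mul_comm]; exact h4
  obtain ⟨x₀, h1⟩ := master hb hC hCC hd (fun c : ι → ℤ => ∑ i, (c i : K) * ω i) (fun c => (b : ℤ) • c)
    (smul_right_injective _ hb0) F G hne hQ hGF
  refine ⟨x₀, fun x hx => ?_⟩
  have h2 := h1 x hx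
  have h3 : G.card = (2 * (X / b) + 1) ^ Fintype.card ι - 1 := by
    rw [hG, Finset.card_erase_of_mem, Fintype.card_piFinset]
    · rw [Finset.prod_const, Int.card_Icc, Finset.card_univ]
      congr 2
      omega
    · rw [Fintype.mem_piFinset]
      intro i
      rw [Finset.mem_Icc]
      show -((X / b : ℕ) : ℤ) ≤ 0 ∧ (0 : ℤ) ≤ ((X / b : ℕ) : ℤ)
      exact ⟨neg_nonpos.2 (Int.natCast_nonneg _), Int.natCast_nonneg _⟩
  rw [h3] at h2
  simpa only [hmemF] using h2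

theorem group {b : ℕ} (hb : 2 ≤ b) {C C' : ℝ} (hC : 0 < C) (hCC : C < C') (hd : Dens b C)
    {ι : Type} [Fintype ι] (g : ι → K) (hg : ∀ i, g i ≠ 0) (w : ι → ℤ) {m : ℤ} (hm : m ≠ 0)
    (h : |∏ i, Algebra.norm ℚ (g i) ^ w i| = (b : ℚ) ^ m) (N : ℕ) :
    ∃ x₀ : ℕ, ∀ x : ℕ, x₀ ≤ x →
      ∏ i, (2 * N + 1 - (w i).natAbs) ≤
        {n : ι → ℤ | (∀ i, |n i| ≤ (N : ℤ)) ∧
          (x : ℝ) / (2 * C' * Real.log x) ≤ cnt (∏ i, g i ^ n i) x}.ncard := by
  classical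
  set F : Finset (ι → ℤ) := Fintype.piFinset fun _ => Finset.Icc (-(N : ℤ)) N with hF
  set G : Finset (ι → ℤ) :=
    Fintype.piFinset fun i => Finset.Icc (-(N : ℤ) + max (-(w i)) 0) (N - max (w i) 0) with hG
  have hb0 : (b : ℚ) ≠ 0 := by
    have : b ≠ 0 := by omega
    exact_mod_cast this
  have hit : ∀ (j : ℕ) (n : ι → ℤ), (fun n : ι → ℤ => n + w)^[j] n = n + (j : ℤ) • w := by
    intro j
    induction j with
    | zero => intro n; simp
    | succ j ih =>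
      intro n
      rw [Function.iterate_succ_apply, ih]
      push_cast
      rw [add_smul, one_smul]
      abel
  have hmemF : ∀ n : ι → ℤ, n ∈ F ↔ ∀ i, |n i| ≤ (N : ℤ) := by
    intro n
    rw [hF, Fintype.mem_piFinset]
    simp only [Finset.mem_Icc, abs_le]
  have hN : ∀ i, Algebra.norm ℚ (g i) ≠ 0 := fun i => Algebra.norm_ne_zero_iff.2 (hg i)
  have hnorm : ∀ n : ι → ℤ, Algebra.norm ℚ (∏ i, g i ^ n i) = ∏ i, Algebra.norm ℚ (g i) ^ n i := by
    intro n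
    rw [map_prod]
    exact Finset.prod_congr rfl fun i _ => norm_zpow (hg i) _
  have hQ : ∀ n ∈ F, ∀ j : ℕ, (fun n : ι → ℤ => n + w)^[j + 1] n ∈ F → ∃ m : ℤ, m ≠ 0 ∧
      |Algebra.norm ℚ (∏ i, g i ^ ((fun n : ι → ℤ => n + w)^[j + 1] n i)) /
        Algebra.norm ℚ (∏ i, g i ^ n i)| = (b : ℚ) ^ m := by
    intro n _ j _
    refine ⟨m * (j + 1 : ℕ), mul_ne_zero hm (by positivity), ?_⟩
    rw [hit, hnorm, hnorm]
    have h2 : ∏ i, Algebra.norm ℚ (g i) ^ (n + ((j + 1 : ℕ) : ℤ) • w) i =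
        (∏ i, Algebra.norm ℚ (g i) ^ n i) * (∏ i, Algebra.norm ℚ (g i) ^ w i) ^ (j + 1) := by
      rw [← Finset.prod_pow, ← Finset.prod_mul_distrib]
      refine Finset.prod_congr rfl fun i _ => ?_
      rw [Pi.add_apply, zpow_add₀ (hN i), Pi.smul_apply, smul_eq_mul, mul_comm ((j + 1 : ℕ) : ℤ), zpow_mul,
        zpow_natCast]
    have h3 : ∏ i, Algebra.norm ℚ (g i) ^ n i ≠ 0 := Finset.prod_ne_zero_iff.2 fun i _ => zpow_ne_zero _ (hN i)
    rw [h2, mul_comm, mul_div_assoc, div_self h3, mul_one, abs_pow, h, zpow_mul, zpow_natCast]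
  have hGF : ∀ n ∈ G, n ∈ F ∧ (fun n : ι → ℤ => n + w) n ∈ F := by
    intro n hn
    rw [hG, Fintype.mem_piFinset] at hn
    simp only [Finset.mem_Icc] at hn
    constructor
    · refine (hmemF n).2 fun i => ?_
      have := hn i
      rw [abs_le]
      omega
    · refine (hmemF _).2 fun i => ?_
      have := hn i
      show |n i + w i| ≤ (N : ℤ)
      rw [abs_le]
      omega
  obtain ⟨x₀, h1⟩ := master hb hC hCC hd (fun n : ι → ℤ => ∏ i, g i ^ n i) (fun n => n + w)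
    (add_left_injective w) F G (fun n _ => Finset.prod_ne_zero_iff.2 fun i _ => zpow_ne_zero _ (hg i)) hQ hGF
  refine ⟨x₀, fun x hx => ?_⟩
  have h2 := h1 x hx
  have h3 : G.card = ∏ i, (2 * N + 1 - (w i).natAbs) := by
    rw [hG, Fintype.card_piFinset]
    refine Finset.prod_congr rfl fun i _ => ?_
    rw [Int.card_Icc]
    omega
  rw [h3] at h2
  simpa only [hmemF] using h2

end Run7.h283.EB
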