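import Pool.Agent.Run7.h283.EB.Grp
import Pool.Agent.Run7.h510.G.Cyc

/-!
# Exceptional bases: the numbers `1 - ζ`
-/

set_option autoImplicit false

namespace Run7.h283.EB

open NumberField IsDedekindDomain Run7.h283.NW
open scoped WithZero IntermediateField

section Field

variable {K : Type} [Field K] [NumberField K]

/-- If all primes of `K` above `p` are Wieferich primes for `1 - ζ` then the same holds, modulo `p ^ 2`, in the
cyclotomic field, and `H_k ≡ 0` for `p ∣ m k + 1`. -/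
theorem harm_of_bad {m q n : ℕ} [NeZero m] (hq : q.Prime) (hm : m = q ^ n) (hm2 : 2 ≤ m) {ζ : K}
    (hζ : IsPrimitiveRoot ζ m) : ∃ B : ℕ, ∀ p : ℕ, B < p → p.Prime → ¬ Bel (1 - ζ) p →
      ∀ k < p, p ∣ m * k + 1 → Run7.h510.Sm p (harmonic k) := by
  classical
  have hne : (1 - ζ : K) ≠ 0 := by
    intro h0
    have h1 : ζ = 1 := by linear_combination -h0
    rw [h1] at hζ
    have := hζ.eq_orderOf
    rw [orderOf_one] at this
    omega
  obtain ⟨B₁, hB₁⟩ := unit_large hne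
  refine ⟨max B₁ (max m (discr K).natAbs), fun p hBp hp hno k hk hd => ?_⟩
  have hpB : B₁ < p := (le_max_left _ _).trans_lt hBp
  have hmp : m < p := ((le_max_left _ _).trans (le_max_right _ _)).trans_lt hBp
  have hdp : (discr K).natAbs < p := ((le_max_right _ _).trans (le_max_right _ _)).trans_lt hBp
  have hdisc : ¬ (p : ℤ) ∣ discr K := by
    intro hdv
    have := Nat.le_of_dvd (Int.natAbs_pos.2 (discr_ne_zero K)) (Int.natCast_dvd.1 hdv)
    omega
  have hpm : ¬ p ∣ m := fun h1 => by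
    have := Nat.le_of_dvd (by omega) h1
    omega
  set N : ℕ := 2 * (Module.finrank ℤ (𝓞 K)).factorial with hN
  have hN2 : 2 ≤ N := by
    have := Nat.factorial_pos (Module.finrank ℤ (𝓞 K))
    omega
  -- the congruence in `K`
  have hint : IsIntegral ℤ (1 - ζ) := isIntegral_one.sub (hζ.isIntegral (NeZero.pos m))
  set β : 𝓞 K := ⟨1 - ζ, hint⟩ with hβ
  have hβe : algebraMap (𝓞 K) K β = ((1 : ℤ) : K) * (1 - ζ) := by
    rw [Int.cast_one, one_mul]
    rfl
  have hval : ∀ v : HeightOneSpectrum (𝓞 K), (p : 𝓞 K) ∈ v.asIdeal →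
      v.valuation K ((1 - ζ) ^ (p ^ N - 1) - 1) ≤ WithZero.exp (-2 : ℤ) := by
    intro v hv
    have h1 := hB₁ p hp hpB v hv
    obtain ⟨f, hf1, hf2, hf⟩ := norm_eq hp v hv
    have h2 : Ideal.absNorm v.asIdeal - 1 ∣ p ^ N - 1 := by
      rw [hf]
      refine Nat.pow_sub_one_dvd_pow_sub_one p ?_
      rw [hN]
      exact dvd_mul_of_dvd_right (Nat.dvd_factorial (by omega) hf2) _
    exact (val_pow_le v h1 h2).trans (wief_le h1 fun h3 => hno ⟨hp, v, hv, h3⟩)
  obtain ⟨z, hz⟩ := global hp hdisc hβe hval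
  have hz' : (1 - ζ) ^ (p ^ N - 1) = 1 + (p : K) ^ 2 * (algebraMap (𝓞 K) K z) := by
    have h1 := congrArg (algebraMap (𝓞 K) K) hz
    rw [map_pow, hβe, Int.cast_one, one_mul] at h1
    simpa using h1
  have hpow : (1 - ζ) ^ p ^ N - (1 - ζ) = (p : K) ^ 2 * ((algebraMap (𝓞 K) K z) * (1 - ζ)) := by
    have h5 : p ^ N = (p ^ N - 1) + 1 := by
      have := pow_pos hp.pos N
      omega
    calc (1 - ζ) ^ p ^ N - (1 - ζ) = (1 - ζ) ^ (p ^ N - 1) * (1 - ζ) - (1 - ζ) := by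
          rw [← pow_succ, ← h5]
      _ = _ := by rw [hz']; ring
  -- the cyclotomic field
  let F : IntermediateField ℚ K := ℚ⟮ζ⟯
  have : IsCyclotomicExtension {m} ℚ F := hζ.intermediateField_adjoin_isCyclotomicExtension ℚ
  let ζF : F := ⟨ζ, IntermediateField.mem_adjoin_simple_self ℚ ζ⟩
  have hζF : IsPrimitiveRoot ζF m := by
    refine IsPrimitiveRoot.of_map_of_injective (f := algebraMap F K) ?_ (algebraMap F K).injective
    exact hζ
  let ζ' : 𝓞 F := ⟨ζF, hζF.isIntegral (NeZero.pos m)⟩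
  have hζ' : IsPrimitiveRoot ζ' m := by
    refine IsPrimitiveRoot.of_map_of_injective (f := algebraMap (𝓞 F) F) ?_ RingOfIntegers.coe_injective
    exact hζF
  have hp0 : (p : K) ≠ 0 := by exact_mod_cast hp.ne_zero
  have hpF : (p : F) ≠ 0 := by exact_mod_cast hp.ne_zero
  have hW : Run7.h510.G.Cyc.W p N (1 - ζ') := by
    unfold Run7.h510.G.Cyc.W
    set y : F := ((1 - ζF) ^ p ^ N - (1 - ζF)) / (p : F) ^ 2 with hy
    have hyK : algebraMap F K y = (algebraMap (𝓞 K) K z) * (1 - ζ) := by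
      have e1 : algebraMap F K ζF = ζ := rfl
      rw [hy, map_div₀, map_sub, map_pow, map_sub, map_one, e1, map_pow, map_natCast, hpow]
      field_simp
    have hyi : IsIntegral ℤ y := by
      rw [← isIntegral_algebraMap_iff (B := K) (algebraMap F K).injective, hyK]
      exact (RingOfIntegers.isIntegral_coe z).mul hint
    let y' : 𝓞 F := ⟨y, hyi⟩
    refine ⟨y', ?_⟩
    apply RingOfIntegers.coe_injective
    have e0 : algebraMap (𝓞 F) F ζ' = ζF := rfl
    have e4 : algebraMap (𝓞 F) F y' = y := rfl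
    have e2 : algebraMap (𝓞 F) F ((1 - ζ') ^ p ^ N - (1 - ζ')) = (1 - ζF) ^ p ^ N - (1 - ζF) := by
      rw [map_sub, map_pow, map_sub, map_one, e0]
    have e3 : algebraMap (𝓞 F) F ((p : 𝓞 F) ^ 2 * y') = (p : F) ^ 2 * y := by
      rw [map_mul, map_pow, map_natCast, e4]
    rw [e2, e3, hy]
    field_simp
  have h1 := Run7.h510.G.Cyc.W_all hq hm hζ' hp hW
  apply Run7.h510.G.Cyc.harm_of_S hp hm2 hmp hk hd
  intro t
  exact Run7.h510.G.Cyc.S_sm hp (Run7.h510.G.Cyc.Tt_dvd hζ' hp (by omega) hpm hN2 h1 t)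

/-- `1 - ζ` has many non-Wieferich primes. -/
theorem cyc_count {m : ℕ} (hpp : IsPrimePow m) (hm : 3 ≤ m) {ζ : K} (hζ : IsPrimitiveRoot ζ m) :
    ∃ x₀ : ℕ, ∀ x : ℕ, x₀ ≤ x → (x : ℝ) / (38 * m * Real.log x) ≤ (cnt (1 - ζ) x : ℝ) := by
  obtain ⟨q, n, hq, -, hqn⟩ := (isPrimePow_nat_iff m).mp hpp
  have hne : NeZero m := ⟨by omega⟩
  have hm0 : (0 : ℝ) < m := by
    have : 0 < m := by omega
    exact_mod_cast this
  obtain ⟨x₀, hx₀⟩ := Run7.h510.G.full_density m 1 (by omega) (by norm_num) (by omega)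
    (Nat.coprime_one_left m) hm
  obtain ⟨B, hB⟩ := harm_of_bad hq hqn.symm (by omega) hζ
  obtain ⟨x₂, h2⟩ := big_div_log ((B + 1) * (37 * 38 * m))
  refine ⟨max x₀ (max (80000 * m ^ 2) (max x₂ 2)), ?_⟩
  intro x hx
  have hx1 : x₀ ≤ x := (le_max_left _ _).trans hx
  have hx2 : 80000 * m ^ 2 ≤ x := (le_max_left _ _).trans ((le_max_right _ _).trans hx)
  have hx3 : x₂ ≤ x := (le_max_left _ _).trans ((le_max_right _ _).trans ((le_max_right _ _).trans hx))
  have hx4 : 2 ≤ x := (le_max_right _ _).trans ((le_max_right _ _).trans ((le_max_right _ _).trans hx))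
  let V : Run7.h510.G.Val := { D := 1, N := 0, hD := Nat.one_pos }
  have h1 := hx₀ x hx1 V (by
    have h2 : (80000 * (m : ℝ) ^ 2) ≤ x := by exact_mod_cast hx2
    have h3 : (1 : ℝ) ≤ (x : ℝ) / (80000 * (m : ℝ) ^ 2) := by
      rw [le_div_iff₀ (by positivity)]
      linarith
    have h4 := Real.add_one_le_exp ((x : ℝ) / (80000 * (m : ℝ) ^ 2))
    have h5 : V.ht = 2 := by
      unfold Run7.h510.G.Val.ht
      show 1 + ((1 : ℕ) : ℝ) + |((0 : ℤ) : ℝ)| = 2
      norm_num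
    rw [h5]
    linarith)
  have hfin : ({p : ℕ | p ≤ x ∧ Bel (1 - ζ) p} ∪ Set.Iic B).Finite :=
    (fin_bel _ x).union (Set.finite_Iic B)
  have hsub : (((Finset.range (x + 1)).filter (fun p => p.Prime ∧ 2 * m < p ∧
      ∃ k < p, p ∣ m * k + 1 ∧
        ¬ padicNorm p ((V.D : ℚ) * harmonic k + V.N) ≤ (p : ℚ)⁻¹) : Finset ℕ) : Set ℕ) ⊆
      {p : ℕ | p ≤ x ∧ Bel (1 - ζ) p} ∪ Set.Iic B := by
    intro p hp
    rw [Finset.mem_coe, Finset.mem_filter, Finset.mem_range] at hp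
    obtain ⟨hp1, hp2, hp3, k, hk, hk1, hk2⟩ := hp
    by_cases hpB : p ≤ B
    · exact Or.inr hpB
    refine Or.inl ⟨by omega, ?_⟩
    by_contra hno
    apply hk2
    have h3 := hB p (by omega) hp2 hno k hk hk1
    have h4 : ((V.D : ℚ) * harmonic k + V.N) = harmonic k := by
      show (((1 : ℕ) : ℚ) * harmonic k + ((0 : ℤ) : ℚ)) = harmonic k
      simp
    rw [h4]
    exact h3
  have h5 := (Set.ncard_le_ncard hsub hfin).trans (Set.ncard_union_le _ _)
  have h7 : (Set.Iic B).ncard = B + 1 := by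
    rw [← Finset.coe_Iic, Set.ncard_coe_finset, Nat.card_Iic]
  rw [h7, Set.ncard_coe_finset] at h5
  have h6 : (((Finset.range (x + 1)).filter (fun p => p.Prime ∧ 2 * m < p ∧
      ∃ k < p, p ∣ m * k + 1 ∧
        ¬ padicNorm p ((V.D : ℚ) * harmonic k + V.N) ≤ (p : ℚ)⁻¹)).card : ℝ) ≤
      (cnt (1 - ζ) x : ℝ) + (B + 1) := by exact_mod_cast h5
  have hlog : 0 < Real.log x := Real.log_pos (by exact_mod_cast (by omega : 1 < x))
  have h4 := h2 x hx3
  have h8 : (x : ℝ) / (37 * m * Real.log x) - (x : ℝ) / (38 * m * Real.log x) =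
      (x / Real.log x) * (1 / (37 * 38 * m)) := by
    field_simp
    norm_num
  have h9 : ((B : ℝ) + 1) ≤ (x / Real.log x) * (1 / (37 * 38 * m)) := by
    calc ((B : ℝ) + 1) = ((B + 1) * (37 * 38 * m)) * (1 / (37 * 38 * m)) := by field_simp
      _ ≤ _ := mul_le_mul_of_nonneg_right h4 (by positivity)
  have h10 := h1.trans h6
  linarith

theorem Exc_cyc {m : ℕ} (hpp : IsPrimePow m) (hm : 3 ≤ m) {ζ : K} (hζ : IsPrimitiveRoot ζ m) (u : Kˣ)
    (hu : (u : K) = 1 - ζ) : u ∉ Exc K := by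
  rw [mem_Exc, hu]
  obtain ⟨x₀, h⟩ := cyc_count hpp hm hζ
  have hm0 : (0 : ℝ) < 38 * m := by
    have : 0 < m := by omega
    positivity
  exact not_Sm hm0 ⟨x₀, fun x hx => h x hx⟩

end Field

end Run7.h283.EB
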