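import Pool.Agent.Run7.h283.EB.Grp
import Pool.Agent.Run7.h510.G.Bases

/-!
# Exceptional bases in number fields: the bases 2, 3, 432
-/

set_option autoImplicit false

namespace Run7.h283.EB

open NumberField IsDedekindDomain Run7.h283.NW
open scoped WithZero

lemma dens_three : Dens 3 110 := by
  obtain ⟨x₀, h⟩ := Run7.h510.B3.density_all
  refine ⟨x₀, fun x hx => ?_⟩
  have h1 := h x hx 0 1 one_ne_zero (by simpa using (Real.exp_pos _).le)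
    (by simpa using Real.one_le_exp (by positivity))
  refine h1.trans ?_
  have h2 : {p : ℕ | p ≤ x ∧ p.Prime ∧ ¬ (p : ℤ) ^ 2 ∣ 1 * (3 ^ (p - 1) - 1) - 0 * p} ⊆
      {p : ℕ | p ≤ x ∧ p.Prime ∧ ¬ p ^ 2 ∣ 3 ^ (p - 1) - 1} := by
    rintro p ⟨hpx, hp, hd⟩
    refine ⟨hpx, hp, fun hd2 => hd ?_⟩
    obtain ⟨c, hc⟩ := hd2
    have h3 : 1 ≤ 3 ^ (p - 1) := Nat.one_le_pow _ _ (by norm_num)
    have h4 : (3 : ℕ) ^ (p - 1) = p ^ 2 * c + 1 := by omega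
    refine ⟨(c : ℤ), ?_⟩
    have h5 : ((3 : ℤ) ^ (p - 1)) = (p : ℤ) ^ 2 * c + 1 := by exact_mod_cast h4
    rw [h5]
    ring
  exact_mod_cast Set.ncard_le_ncard h2 ((Set.finite_Iic x).subset fun _ hp => hp.1)

lemma dens_432 : Dens 432 110 := by
  obtain ⟨x₀, h⟩ := Run7.h510.G.Six.density_all 1 (Or.inl rfl)
  refine ⟨x₀, fun x hx => ?_⟩
  have h1 := h x hx 0 1 one_ne_zero (by simpa using (Real.exp_pos _).le)
    (by simpa using Real.one_le_exp (by positivity))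
  refine h1.trans ?_
  have h2 : {p : ℕ | p ≤ x ∧ p.Prime ∧ p % 6 = 1 ∧ ¬ (p : ℤ) ^ 2 ∣ 1 * (432 ^ (p - 1) - 1) - 0 * p} ⊆
      {p : ℕ | p ≤ x ∧ p.Prime ∧ ¬ p ^ 2 ∣ 432 ^ (p - 1) - 1} := by
    rintro p ⟨hpx, hp, -, hd⟩
    refine ⟨hpx, hp, fun hd2 => hd ?_⟩
    obtain ⟨c, hc⟩ := hd2
    have h3 : 1 ≤ 432 ^ (p - 1) := Nat.one_le_pow _ _ (by norm_num)
    have h4 : (432 : ℕ) ^ (p - 1) = p ^ 2 * c + 1 := by omega
    refine ⟨(c : ℤ), ?_⟩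
    have h5 : ((432 : ℤ) ^ (p - 1)) = (p : ℤ) ^ 2 * c + 1 := by exact_mod_cast h4
    rw [h5]
    ring
  exact_mod_cast Set.ncard_le_ncard h2 ((Set.finite_Iic x).subset fun _ hp => hp.1)

/-- the bases with their constants -/
lemma dens_all {b : ℕ} {C : ℝ} (h : (b = 2 ∧ C = 51) ∨ ((b = 3 ∨ b = 432) ∧ C = 111)) :
    2 ≤ b ∧ ∃ C₀ : ℝ, 0 < C₀ ∧ C₀ < C ∧ Dens b C₀ := by
  rcases h with ⟨rfl, rfl⟩ | ⟨rfl | rfl, rfl⟩
  · exact ⟨le_rfl, 50, by norm_num, by norm_num, Run7.h361.density⟩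
  · exact ⟨by norm_num, 110, by norm_num, by norm_num, dens_three⟩
  · exact ⟨by norm_num, 110, by norm_num, by norm_num, dens_432⟩

end Run7.h283.EB
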