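import Pool.Agent.Run7.h283.EB.Count

/-!
# The group of the exceptional bases of a number field
-/

set_option autoImplicit false

namespace Run7.h283.EB

open NumberField IsDedekindDomain Run7.h283.NW
open scoped WithZero

/-- the set of the `p` with the property `P` has density zero (in comparison with the primes) -/
def Sm (P : ℕ → Prop) : Prop := ∀ ε : ℝ, 0 < ε → ∃ x₀ : ℕ, ∀ x : ℕ, x₀ ≤ x →
  ({p : ℕ | p ≤ x ∧ P p}.ncard : ℝ) ≤ ε * (x / Real.log x)

lemma Sm.of {P Q R : ℕ → Prop} (h : ∃ B : ℕ, ∀ p, B < p → P p → Q p ∨ R p) (hQ : Sm Q) (hR : Sm R) : Sm P := by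
  obtain ⟨B, hB⟩ := h
  intro ε hε
  obtain ⟨x₁, h1⟩ := hQ (ε / 3) (by positivity)
  obtain ⟨x₂, h2⟩ := hR (ε / 3) (by positivity)
  obtain ⟨x₃, h3⟩ := big_div_log ((B + 1) * (3 / ε))
  refine ⟨max x₁ (max x₂ x₃), fun x hx => ?_⟩
  have e1 := h1 x ((le_max_left _ _).trans hx)
  have e2 := h2 x ((le_max_left _ _).trans ((le_max_right _ _).trans hx))
  have e3 := h3 x ((le_max_right _ _).trans ((le_max_right _ _).trans hx))
  have hf : ∀ S : ℕ → Prop, {p : ℕ | p ≤ x ∧ S p}.Finite := fun S =>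
    (Set.finite_Iic x).subset fun _ hp => hp.1
  have hsub : {p : ℕ | p ≤ x ∧ P p} ⊆ ({p : ℕ | p ≤ x ∧ Q p} ∪ {p : ℕ | p ≤ x ∧ R p}) ∪ Set.Iic B := by
    rintro p ⟨hpx, hp⟩
    by_cases hpB : p ≤ B
    · exact Or.inr hpB
    · rcases hB p (by omega) hp with h | h
      · exact Or.inl (Or.inl ⟨hpx, h⟩)
      · exact Or.inl (Or.inr ⟨hpx, h⟩)
  have h4 := (Set.ncard_le_ncard hsub (((hf Q).union (hf R)).union (Set.finite_Iic B))).trans
    ((Set.ncard_union_le _ _).trans (Nat.add_le_add_right (Set.ncard_union_le _ _) _))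
  have h7 : (Set.Iic B).ncard = B + 1 := by
    rw [← Finset.coe_Iic, Set.ncard_coe_finset, Nat.card_Iic]
  rw [h7] at h4
  have h5 : ({p : ℕ | p ≤ x ∧ P p}.ncard : ℝ) ≤ ({p : ℕ | p ≤ x ∧ Q p}.ncard : ℝ) +
      ({p : ℕ | p ≤ x ∧ R p}.ncard : ℝ) + (B + 1) := by exact_mod_cast h4
  have h6 : ((B : ℝ) + 1) ≤ ε / 3 * (x / Real.log x) := by
    calc ((B : ℝ) + 1) = ε / 3 * ((B + 1) * (3 / ε)) := by field_simp
      _ ≤ _ := mul_le_mul_of_nonneg_left e3 (by positivity)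
  calc _ ≤ _ := h5
    _ ≤ ε / 3 * (x / Real.log x) + ε / 3 * (x / Real.log x) + ε / 3 * (x / Real.log x) := by linarith
    _ = ε * (x / Real.log x) := by ring

lemma Sm.false_ : Sm fun _ => False := by
  intro ε hε
  refine ⟨1, fun x hx => ?_⟩
  have h1 : {p : ℕ | p ≤ x ∧ False} = ∅ := by ext p; simp
  rw [h1, Set.ncard_empty]
  have : 0 ≤ Real.log x := Real.log_natCast_nonneg x
  push_cast
  positivity

lemma not_Sm {P : ℕ → Prop} {C : ℝ} (hC : 0 < C) (h : ∃ x₀ : ℕ, ∀ x : ℕ, x₀ ≤ x →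
    (x : ℝ) / (C * Real.log x) ≤ ({p : ℕ | p ≤ x ∧ P p}.ncard : ℝ)) : ¬ Sm P := by
  intro hS
  obtain ⟨x₀, h1⟩ := h
  obtain ⟨x₁, h2⟩ := hS (1 / (2 * C)) (by positivity)
  set x := max x₀ (max x₁ 3) with hx
  have e1 := h1 x (le_max_left _ _)
  have e2 := h2 x ((le_max_left _ _).trans (le_max_right _ _))
  have e3 : 3 ≤ x := (le_max_right _ _).trans (le_max_right _ _)
  have hx0 : (0 : ℝ) < x := by exact_mod_cast (by omega : 0 < x)
  have hlog : 0 < Real.log x := Real.log_pos (by exact_mod_cast (by omega : 1 < x))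
  have e4 : (x : ℝ) / (C * Real.log x) = (1 / C) * (x / Real.log x) := by
    field_simp
  have e5 : 0 < (x : ℝ) / Real.log x := div_pos hx0 hlog
  have e6 : (1 / (2 * C)) * ((x : ℝ) / Real.log x) < (1 / C) * (x / Real.log x) := by
    apply mul_lt_mul_of_pos_right _ e5
    rw [div_lt_div_iff₀ (by positivity) hC]
    linarith
  linarith

section Field

variable {K : Type} [Field K] [NumberField K]

lemma wief_le {v : HeightOneSpectrum (𝓞 K)} {a : K} (ha : v.valuation K a = 1) (h : ¬ NonWieferich K a v) :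
    v.valuation K (a ^ (Ideal.absNorm v.asIdeal - 1) - 1) ≤ WithZero.exp (-2 : ℤ) :=
  discrete (fermat v ha) fun h1 => h ⟨ha, h1⟩

lemma not_exp_le {x : ℤᵐ⁰} (h : x = WithZero.exp (-1 : ℤ)) (h2 : x ≤ WithZero.exp (-2 : ℤ)) : False := by
  rw [h, WithZero.exp_le_exp] at h2
  norm_num at h2

lemma bel_mul {a b : K} (ha : a ≠ 0) (hb : b ≠ 0) : ∃ B : ℕ, ∀ p, B < p → Bel (a * b) p → Bel a p ∨ Bel b p := by
  obtain ⟨B₁, h1⟩ := unit_large ha
  obtain ⟨B₂, h2⟩ := unit_large hb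
  refine ⟨max B₁ B₂, fun p hp hab => ?_⟩
  obtain ⟨hpp, v, hv, hw⟩ := hab
  have ha1 := h1 p hpp ((le_max_left _ _).trans_lt hp) v hv
  have hb1 := h2 p hpp ((le_max_right _ _).trans_lt hp) v hv
  by_cases hA : NonWieferich K a v
  · exact Or.inl ⟨hpp, v, hv, hA⟩
  by_cases hB : NonWieferich K b v
  · exact Or.inr ⟨hpp, v, hv, hB⟩
  exfalso
  have h3 := wief_le ha1 hA
  have h4 := wief_le hb1 hB
  refine not_exp_le hw.2 ?_
  set q := Ideal.absNorm v.asIdeal - 1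
  have h5 : (a * b) ^ q - 1 = a ^ q * (b ^ q - 1) + (a ^ q - 1) := by ring
  rw [h5]
  refine (Valuation.map_add _ _ _).trans (max_le ?_ h3)
  rw [map_mul, map_pow, ha1, one_pow, one_mul]
  exact h4

lemma bel_inv {a : K} (p : ℕ) (h : Bel a⁻¹ p) : Bel a p := by
  obtain ⟨hpp, v, hv, h1, h2⟩ := h
  have ha1 : v.valuation K a = 1 := by
    rw [map_inv₀, inv_eq_one] at h1
    exact h1
  have ha0 : a ≠ 0 := by
    rintro rfl
    rw [map_zero] at ha1
    exact zero_ne_one ha1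
  refine ⟨hpp, v, hv, ha1, ?_⟩
  set q := Ideal.absNorm v.asIdeal - 1
  have h3 : a ^ q - 1 = -(a ^ q) * (a⁻¹ ^ q - 1) := by
    rw [inv_pow]
    have : a ^ q ≠ 0 := pow_ne_zero _ ha0
    field_simp
    ring
  rw [h3, map_mul, Valuation.map_neg, map_pow, ha1, one_pow, one_mul]
  exact h2

lemma not_bel_one (p : ℕ) : ¬ Bel (1 : K) p := by
  rintro ⟨-, v, -, -, h2⟩
  rw [one_pow, sub_self, map_zero] at h2
  exact WithZero.exp_ne_zero h2.symm

lemma bel_pow {a : K} {k : ℕ} (hk : 0 < k) (p : ℕ) (hkp : k < p) (h : Bel a p) : Bel (a ^ k) p := by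
  obtain ⟨hpp, v, hv, h1, h2⟩ := h
  refine ⟨hpp, v, hv, by rw [map_pow, h1, one_pow], ?_⟩
  set q := Ideal.absNorm v.asIdeal - 1
  set u := a ^ q with hu
  have hu1 : v.valuation K (u - 1) < 1 := by
    rw [h2, ← WithZero.exp_zero, WithZero.exp_lt_exp]
    norm_num
  have huv : v.valuation K u = 1 := by rw [hu, map_pow, h1, one_pow]
  have h3 : (a ^ k) ^ q - 1 = (∑ i ∈ Finset.range k, u ^ i) * (u - 1) := by
    rw [geom_sum_mul, hu]
    ring
  have hkv : v.valuation K ((k : ℤ) : K) = 1 := by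
    refine int_val p hpp v hv ?_
    intro hd
    have := Nat.le_of_dvd hk (Int.natCast_dvd_natCast.1 hd)
    omega
  have h4 : v.valuation K ((∑ i ∈ Finset.range k, u ^ i) - ((k : ℤ) : K)) < 1 := by
    have h5 : (∑ i ∈ Finset.range k, u ^ i) - ((k : ℤ) : K) = ∑ i ∈ Finset.range k, (u ^ i - 1) := by
      rw [Finset.sum_sub_distrib]
      simp
    rw [h5]
    refine Valuation.map_sum_lt _ one_ne_zero fun i _ => ?_
    have h6 : u ^ i - 1 = (∑ j ∈ Finset.range i, u ^ j) * (u - 1) := by rw [geom_sum_mul]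
    rw [h6, map_mul]
    have h7 : v.valuation K (∑ j ∈ Finset.range i, u ^ j) ≤ 1 :=
      Valuation.map_sum_le _ fun j _ => by rw [map_pow, huv, one_pow]
    calc _ ≤ 1 * v.valuation K (u - 1) := mul_le_mul_left h7 _
      _ < 1 := by rw [one_mul]; exact hu1
  have h8 : v.valuation K (∑ i ∈ Finset.range k, u ^ i) = 1 := by
    have h9 : (∑ i ∈ Finset.range k, u ^ i) = ((k : ℤ) : K) + ((∑ i ∈ Finset.range k, u ^ i) - ((k : ℤ) : K)) := by
      ring
    rw [h9, Valuation.map_add_eq_of_lt_left, hkv]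
    rw [hkv]
    exact h4
  rw [h3, map_mul, h8, one_mul]
  exact h2

variable (K) in
/-- the group of the bases for which almost all primes are Wieferich primes -/
def Exc : Subgroup Kˣ where
  carrier := {u | Sm (Bel (u : K))}
  one_mem' := by
    show Sm (Bel ((1 : Kˣ) : K))
    refine Sm.of ⟨0, fun p _ h => ?_⟩ Sm.false_ Sm.false_
    exact absurd (by simpa using h) (not_bel_one p)
  mul_mem' := by
    intro a b ha hb
    show Sm (Bel ((a * b : Kˣ) : K))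
    refine Sm.of ?_ ha hb
    obtain ⟨B, hB⟩ := bel_mul a.ne_zero b.ne_zero
    exact ⟨B, fun p hp h => hB p hp (by simpa using h)⟩
  inv_mem' := by
    intro a ha
    show Sm (Bel ((a⁻¹ : Kˣ) : K))
    refine Sm.of ⟨0, fun p _ h => Or.inl (bel_inv p ?_)⟩ ha ha
    simpa using h

lemma mem_Exc (u : Kˣ) : u ∈ Exc K ↔ Sm (Bel (u : K)) := Iff.rfl

lemma Exc_root (u : Kˣ) {k : ℕ} (hk : 0 < k) (h : u ^ k ∈ Exc K) : u ∈ Exc K := by
  rw [mem_Exc] at h ⊢
  refine Sm.of ⟨k, fun p hp hb => Or.inl ?_⟩ h h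
  have := bel_pow hk p hp hb
  simpa using this

lemma Exc_norm {b : ℕ} (hb : 2 ≤ b) {C : ℝ} (hC : 0 < C) (hd : Dens b C) (u : Kˣ) (k m : ℤ) (hm : m ≠ 0)
    (h : |Algebra.norm ℚ (u : K)| ^ k = (b : ℚ) ^ m) : u ∉ Exc K := by
  rw [mem_Exc]
  obtain ⟨x₀, h1⟩ := dens_of (ι := Unit) (fun _ => K) (fun _ => (u : K)) (fun _ => u.ne_zero)
    (fun _ => k) hm hb (by simpa [abs_zpow] using h) hC (by linarith : C < C + 1) hd
  refine not_Sm (by linarith : 0 < C + 1) ⟨x₀, fun x hx => (h1 x hx).trans ?_⟩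
  have h2 : {p : ℕ | p ≤ x ∧ Below (ι := Unit) (fun _ => K) (fun _ => (u : K)) p} ⊆
      {p : ℕ | p ≤ x ∧ Bel (u : K) p} := by
    rintro p ⟨hpx, hp, _, v, hv, hw⟩
    exact ⟨hpx, hp, v, hv, hw⟩
  exact_mod_cast Set.ncard_le_ncard h2 (fin_bel _ x)

lemma Exc_inf (u : Kˣ) (h : u ∉ Exc K) :
    {n : ℕ | ∃ v : HeightOneSpectrum (𝓞 K), ExactPrimitive K (u : K) n v}.Infinite := by
  have h1 := infinite_of (ι := Unit) (fun _ => K) (fun _ => (u : K)) ?_
  · refine h1.mono ?_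
    rintro n ⟨_, v, hv⟩
    exact ⟨v, hv⟩
  · intro P
    by_contra hno
    push Not at hno
    apply h
    rw [mem_Exc]
    refine Sm.of ⟨P, fun p hp hb => ?_⟩ Sm.false_ Sm.false_
    obtain ⟨hpp, v, hv, hw⟩ := hb
    exact absurd ⟨hpp, (), v, hv, hw⟩ (hno p hp)

end Field

end Run7.h283.EB
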